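import Mathlib

/-!
# Every N-ary coset of the lifted dihedral group is affine

If `σ` normalises the lifted dihedral group, then `σ` conjugates the translation by one and the
reflection `x ↦ -x` to affine maps, and this forces `σ` to be affine.
-/

set_option autoImplicit false

namespace Pool.Agent.Results.MP_72c4d1_al.LiftedDihedral

/-- the product of the distinct primes dividing `n` -/
def rad (n : ℕ) : ℕ := ∏ p ∈ n.primeFactors, p

lemma rad_dvd (n : ℕ) : rad n ∣ n := Nat.prod_primeFactors_dvd n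

/-- the affine permutations of `ZMod n` -/
def Aff (n : ℕ) : Set (Equiv.Perm (ZMod n)) :=
  {σ | ∃ (a : (ZMod n)ˣ) (b : ZMod n), ∀ i, σ i = a * i + b}

/-- the lifted dihedral group: the affine maps `i ↦ u i + b` with `u ^ 2 = 1` modulo `rad n` -/
def Dsharp (n : ℕ) : Set (Equiv.Perm (ZMod n)) :=
  {σ | ∃ (u : (ZMod n)ˣ) (b : ZMod n),
    ZMod.castHom (rad_dvd n) (ZMod (rad n)) ((u : ZMod n) ^ 2) = 1 ∧ ∀ i, σ i = u * i + b}

/-- the coset `σ H` -/
def coset {n : ℕ} (σ : Equiv.Perm (ZMod n)) (H : Set (Equiv.Perm (ZMod n))) :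
    Set (Equiv.Perm (ZMod n)) := {ρ | ∃ h ∈ H, ρ = σ * h}

/-- closed under the products of `N` of its elements -/
def ClosedUnder {n : ℕ} (N : ℕ) (C : Set (Equiv.Perm (ZMod n))) : Prop :=
  ∀ l : List (Equiv.Perm (ZMod n)), l.length = N → (∀ ρ ∈ l, ρ ∈ C) → l.prod ∈ C

variable {n : ℕ}

lemma one_mem : (1 : Equiv.Perm (ZMod n)) ∈ Dsharp n :=
  ⟨1, 0, by rw [Units.val_one, one_pow, map_one], fun i => by simp⟩

lemma mul_mem {σ τ : Equiv.Perm (ZMod n)} (hσ : σ ∈ Dsharp n) (hτ : τ ∈ Dsharp n) :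
    σ * τ ∈ Dsharp n := by
  obtain ⟨u, b, h1, h2⟩ := hσ
  obtain ⟨v, c, h3, h4⟩ := hτ
  refine ⟨u * v, u * c + b, ?_, fun i => ?_⟩
  · rw [Units.val_mul, mul_pow, map_mul, h1, h3, one_mul]
  · rw [Equiv.Perm.mul_apply, h2, h4, Units.val_mul]
    ring

lemma inv_mem {σ : Equiv.Perm (ZMod n)} (hσ : σ ∈ Dsharp n) : σ⁻¹ ∈ Dsharp n := by
  obtain ⟨u, b, h1, h2⟩ := hσ
  refine ⟨u⁻¹, -(u⁻¹ : (ZMod n)ˣ) * b, ?_, fun i => ?_⟩
  · have h3 : ZMod.castHom (rad_dvd n) (ZMod (rad n)) ((u : ZMod n) ^ 2) *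
        ZMod.castHom (rad_dvd n) (ZMod (rad n)) (((u⁻¹ : (ZMod n)ˣ) : ZMod n) ^ 2) = 1 := by
      rw [← map_mul, ← mul_pow, Units.mul_inv, one_pow, map_one]
    rwa [h1, one_mul] at h3
  · rw [Equiv.Perm.inv_eq_iff_eq, h2]
    have h3 : (u : ZMod n) * ((u⁻¹ : (ZMod n)ˣ) : ZMod n) = 1 := Units.mul_inv u
    linear_combination (b - i) * h3

/-- the translation by one -/
def tr (n : ℕ) : Equiv.Perm (ZMod n) := Equiv.addRight 1

/-- the reflection -/
def refl' (n : ℕ) : Equiv.Perm (ZMod n) := Equiv.neg (ZMod n)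

lemma tr_mem : tr n ∈ Dsharp n := ⟨1, 1, by rw [Units.val_one, one_pow, map_one], fun i => by simp [tr]⟩

lemma refl_mem : refl' n ∈ Dsharp n := ⟨-1, 0, by
  rw [Units.val_neg, Units.val_one, neg_one_sq, map_one], fun i => by simp [refl']⟩

lemma conj_mem {σ : Equiv.Perm (ZMod n)} {N : ℕ} (hN : 2 ≤ N)
    (h : ClosedUnder N (coset σ (Dsharp n))) {ρ : Equiv.Perm (ZMod n)} (hρ : ρ ∈ Dsharp n) :
    σ * ρ * σ⁻¹ ∈ Dsharp n := by
  obtain ⟨k, rfl⟩ := Nat.exists_eq_add_of_le hN
  have h0 : σ ∈ coset σ (Dsharp n) := ⟨1, one_mem, by simp⟩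
  have h1 := h (List.replicate (2 + k) σ) (by simp) (fun x hx => by
    rw [List.eq_of_mem_replicate hx]
    exact h0)
  have h2 := h (σ :: (σ * ρ) :: List.replicate k σ) (by
    rw [List.length_cons, List.length_cons, List.length_replicate]
    ring) (fun x hx => by
    rw [List.mem_cons, List.mem_cons] at hx
    rcases hx with rfl | rfl | hx
    · exact h0
    · exact ⟨ρ, hρ, rfl⟩
    · rw [List.eq_of_mem_replicate hx]
      exact h0)
  rw [List.prod_replicate] at h1
  rw [List.prod_cons, List.prod_cons, List.prod_replicate] at h2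
  obtain ⟨a, ha, h3⟩ := h1
  obtain ⟨b, hb, h4⟩ := h2
  have h5 : a = σ ^ (k + 1) := by
    have : σ * a = σ * σ ^ (k + 1) := by rw [← h3, ← pow_succ', add_comm 2 k]
    exact mul_left_cancel this
  have h6 : b = σ * ρ * σ ^ k := mul_left_cancel h4.symm
  have h7 : σ * ρ * σ⁻¹ = b * a⁻¹ := by
    rw [h5, h6, pow_succ]
    group
  rw [h7]
  exact mul_mem hb (inv_mem ha)

lemma affine_of_conj (hn : Odd n) {σ : Equiv.Perm (ZMod n)}
    (h1 : σ * tr n * σ⁻¹ ∈ Dsharp n) (h2 : σ * refl' n * σ⁻¹ ∈ Dsharp n) : σ ∈ Aff n := by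
  obtain ⟨u, b, -, h1⟩ := h1
  obtain ⟨u', v', -, h2⟩ := h2
  have k1 : ∀ x, σ (x + 1) = u * σ x + b := by
    intro x
    have := h1 (σ x)
    simpa [tr] using this
  have k2 : ∀ x, σ (-x) = u' * σ x + v' := by
    intro x
    have := h2 (σ x)
    simpa [refl'] using this
  have hne : NeZero n := ⟨by rintro rfl; exact absurd hn (by decide)⟩
  set c := σ 0 with hc
  set s : ZMod n → ZMod n := fun x => σ x - c with hs
  set b' := s 1 with hb'
  have s0 : s 0 = 0 := by simp [hs, hc]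
  have e1 : σ 1 = u * c + b := by
    have := k1 0
    rwa [zero_add, ← hc] at this
  have e2 : c = u' * c + v' := by
    have := k2 0
    rwa [neg_zero, ← hc] at this
  have s1 : ∀ x, s (x + 1) = u * s x + b' := by
    intro x
    simp only [hs, hb']
    rw [k1, e1]
    ring
  have s2 : ∀ x, s (-x) = u' * s x := by
    intro x
    simp only [hs]
    rw [k2]
    linear_combination -e2
  -- `b'` is a unit
  have s3 : ∀ m : ℕ, b' ∣ s m := by
    intro m
    induction m with
    | zero => rw [Nat.cast_zero, s0]; exact dvd_zero _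
    | succ m ih =>
      rw [Nat.cast_succ, s1]
      exact dvd_add (Dvd.dvd.mul_left ih _) (dvd_refl _)
  have hunit : IsUnit b' := by
    apply isUnit_of_dvd_one
    obtain ⟨x, hx⟩ := σ.surjective (1 + c)
    have h3 := s3 x.val
    rw [ZMod.natCast_zmod_val] at h3
    have h4 : s x = 1 := by simp [hs, hx]
    rwa [h4] at h3
  -- `u ^ 2 = 1`
  have t1 : s (-1) = u' * b' := s2 1
  have t2 : (0 : ZMod n) = u * s (-1) + b' := by
    have := s1 (-1)
    rwa [neg_add_cancel, s0] at this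
  have t3 : s 2 = u * b' + b' := by
    have := s1 1
    rwa [one_add_one_eq_two] at this
  have t4 : s (-2) = u' * s 2 := s2 2
  have t5 : s (-1) = u * s (-2) + b' := by
    have := s1 (-2)
    rwa [show (-2 : ZMod n) + 1 = -1 by ring] at this
  have t6 : ((u : ZMod n) ^ 2) * b' = 1 * b' := by
    rw [t4, t3] at t5
    rw [t1] at t2 t5
    linear_combination (u : ZMod n) * t5 - ((u : ZMod n) ^ 2 + u - 1) * t2
  have hu2 : (u : ZMod n) ^ 2 = 1 := hunit.mul_right_cancel t6
  -- `u + 1` is a unit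
  have s4 : ∀ m : ℕ, s (1 + 2 * m) = b' + m * ((u + 1) * b') := by
    intro m
    induction m with
    | zero => simp [hb']
    | succ m ih =>
      have e : (1 : ZMod n) + 2 * ((m + 1 : ℕ) : ZMod n) = (1 + 2 * m + 1) + 1 := by
        push_cast
        ring
      rw [e, s1, s1, ih]
      push_cast
      linear_combination (b' + m * ((u + 1) * b')) * hu2
  obtain ⟨k, hk⟩ := hn
  have t7 : (1 : ZMod n) + 2 * k = 0 := by
    have : ((2 * k + 1 : ℕ) : ZMod n) = 0 := by
      rw [← hk]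
      exact ZMod.natCast_self n
    push_cast at this
    linear_combination this
  have t8 := s4 k
  rw [t7, s0] at t8
  have t9 : ((u : ZMod n) + 1) * (-k) = 1 := by
    apply hunit.mul_right_cancel
    linear_combination t8
  have hu : (u : ZMod n) = 1 := by
    have h3 : ((u : ZMod n) - 1) * ((u + 1) * (-k)) = 0 := by
      linear_combination (-(k : ZMod n)) * hu2
    rw [t9, mul_one] at h3
    exact sub_eq_zero.1 h3
  have s5 : ∀ m : ℕ, s m = b' * m := by
    intro m
    induction m with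
    | zero => rw [Nat.cast_zero, s0, mul_zero]
    | succ m ih =>
      rw [Nat.cast_succ, s1, ih, hu]
      ring
  obtain ⟨a, ha⟩ := hunit
  refine ⟨a, c, fun i => ?_⟩
  have h3 := s5 i.val
  rw [ZMod.natCast_zmod_val] at h3
  rw [ha, ← h3]
  simp [hs]

/-- **Every coset of the lifted dihedral group that is closed under `N`-fold products for some
`N ≥ 2` is affine.** -/
theorem result (n : ℕ) (h6 : Nat.Coprime n 6) (σ : Equiv.Perm (ZMod n)) (N : ℕ) (hN : 2 ≤ N)
    (h : ClosedUnder N (coset σ (Dsharp n))) : σ ∈ Aff n := by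
  have hn : Odd n := by
    have h2 : Nat.Coprime n 2 := Nat.Coprime.coprime_dvd_right (by norm_num) h6
    exact Nat.Coprime.odd_of_right h2
  exact affine_of_conj hn (conj_mem hN h tr_mem) (conj_mem hN h refl_mem)

end Pool.Agent.Results.MP_72c4d1_al.LiftedDihedral
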