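import Mathlib

set_option autoImplicit false

/-!
# MP_72c4d1_al: non-affine panmagic cosets of the lifted dihedral group do not exist

For odd `n`, every permutation of `ℤ / n` which normalises a group lying between the dihedral
group and the affine group is affine. So no coset `σ D#` with `σ` non-affine is closed under
`N`-fold products, whatever `N ≥ 2`.
-/

namespace Pool.Agent.Results.MP_72c4d1_al.NoNonAffineCoset

/-- A permutation of `ℤ / n` is panmagic if `i ↦ σ i + i` and `i ↦ σ i - i` are bijections. -/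
def Panmagic {n : ℕ} (σ : Equiv.Perm (ZMod n)) : Prop :=
  Function.Bijective (fun i => σ i + i) ∧ Function.Bijective (fun i => σ i - i)

/-- The affine permutations `i ↦ a i + b` with `a` a unit. -/
def IsAffine {n : ℕ} (σ : Equiv.Perm (ZMod n)) : Prop :=
  ∃ a b : ZMod n, IsUnit a ∧ ∀ i, σ i = a * i + b

/-- The lifted dihedral group: the permutations `i ↦ u i + b` with `u` a unit such that
`u ^ 2 ≡ 1` modulo the product `rad n` of the distinct primes dividing `n`. -/
def LiftedDihedral (n : ℕ) : Set (Equiv.Perm (ZMod n)) :=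
  {σ | ∃ u b : ZMod n, IsUnit u ∧ ((∏ p ∈ n.primeFactors, p : ℕ) : ZMod n) ∣ u ^ 2 - 1 ∧
    ∀ i, σ i = u * i + b}

/-- The coset `σ H`. -/
def coset {n : ℕ} (σ : Equiv.Perm (ZMod n)) (H : Set (Equiv.Perm (ZMod n))) :
    Set (Equiv.Perm (ZMod n)) := {τ | ∃ h ∈ H, τ = σ * h}

/-- A set of permutations is closed under products of `N` of its elements. -/
def ClosedUnder {n : ℕ} (N : ℕ) (S : Set (Equiv.Perm (ZMod n))) : Prop :=
  ∀ l : List (Equiv.Perm (ZMod n)), l.length = N → (∀ τ ∈ l, τ ∈ S) → l.prod ∈ S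

/-- Affine permutations are closed under products. -/
theorem IsAffine.mul {n : ℕ} {σ τ : Equiv.Perm (ZMod n)} (h1 : IsAffine σ) (h2 : IsAffine τ) :
    IsAffine (σ * τ) := by
  obtain ⟨a, b, ha, h1⟩ := h1
  obtain ⟨c, d, hc, h2⟩ := h2
  refine ⟨a * c, a * d + b, ha.mul hc, fun i => ?_⟩
  rw [Equiv.Perm.mul_apply, h1, h2]
  ring

/-- Affine permutations are closed under inverses. -/
theorem IsAffine.inv {n : ℕ} {σ : Equiv.Perm (ZMod n)} (h1 : IsAffine σ) :
    IsAffine σ⁻¹ := by
  obtain ⟨a, b, ha, h1⟩ := h1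
  obtain ⟨a, rfl⟩ := ha
  refine ⟨((a⁻¹ : (ZMod n)ˣ) : ZMod n), -(((a⁻¹ : (ZMod n)ˣ) : ZMod n) * b), Units.isUnit _,
    fun i => ?_⟩
  rw [Equiv.Perm.inv_eq_iff_eq, h1]
  have : (a : ZMod n) * ((a⁻¹ : (ZMod n)ˣ) : ZMod n) = 1 := a.mul_inv
  linear_combination (b - i) * this

/-- The main point: for odd `n`, a permutation which conjugates the translation `x ↦ x + 1` and the
reflection `x ↦ - x` to affine permutations is affine. -/
theorem affine_of_conj {n : ℕ} [NeZero n] (hn : Odd n) (σ t r : Equiv.Perm (ZMod n))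
    (ht : ∀ i, t i = i + 1) (hr : ∀ i, r i = -i) (h1 : IsAffine (σ * t * σ⁻¹))
    (h2 : IsAffine (σ * r * σ⁻¹)) : IsAffine σ := by
  obtain ⟨u, b, hu, h1⟩ := h1
  obtain ⟨w, c, hw, h2⟩ := h2
  have h1' : ∀ x, σ (x + 1) = u * σ x + b := by
    intro x
    have := h1 (σ x)
    simpa [Equiv.Perm.mul_apply, ht] using this
  have h2' : ∀ x, σ (-x) = w * σ x + c := by
    intro x
    have := h2 (σ x)
    simpa [Equiv.Perm.mul_apply, hr] using this
  -- the normalised map
  set g : ZMod n → ZMod n := fun x => σ x - σ 0 with hg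
  have hginj : Function.Injective g := by
    intro x y hxy
    have : σ x = σ y := by
      simp only [hg] at hxy
      linear_combination hxy
    exact σ.injective this
  have hgsurj : Function.Surjective g := by
    intro z
    refine ⟨σ.symm (z + σ 0), ?_⟩
    simp [hg]
  have g0 : g 0 = 0 := by simp [hg]
  have gneg : ∀ x, g (-x) = w * g x := by
    intro x
    have e1 := h2' x
    have e2 := h2' 0
    rw [neg_zero] at e2
    simp only [hg]
    linear_combination e1 - e2
  have gsucc : ∀ x, g (x + 1) = u * g x + g 1 := by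
    intro x
    have e1 := h1' x
    have e2 := h1' 0
    rw [zero_add] at e2
    simp only [hg]
    linear_combination e1 - e2
  have hw2 : w * w = 1 := by
    obtain ⟨x, hx⟩ := hgsurj 1
    have := gneg (-x)
    rw [neg_neg, gneg, hx] at this
    rw [mul_one] at this
    exact this.symm
  have h2u : IsUnit (2 : ZMod n) := by
    have : ((2 : ℕ) : ZMod n) = 2 := by norm_num
    rw [← this, ZMod.isUnit_iff_coprime]
    exact (Nat.coprime_two_left.2 hn)
  have hwz : ∀ z : ZMod n, (w - 1) * z = 0 → z = 0 := by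
    intro z hz
    obtain ⟨x, rfl⟩ := hgsurj z
    have : g (-x) = g x := by
      rw [gneg]
      linear_combination hz
    have h3 : -x = x := hginj this
    have h4 : (2 : ZMod n) * x = 0 := by linear_combination -h3
    have h5 : x = 0 := by
      obtain ⟨v, hv⟩ := h2u
      rw [← hv] at h4
      exact (Units.mul_right_eq_zero v).1 h4
    rw [h5, g0]
  have hw1 : w = -1 := by
    have : w + 1 = 0 := hwz _ (by linear_combination hw2)
    linear_combination this
  -- values of `g`
  have gval : ∀ k : ℕ, ∃ s : ZMod n, g (k : ZMod n) = s * g 1 := by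
    intro k
    induction k with
    | zero => exact ⟨0, by simp [g0]⟩
    | succ k ih =>
      obtain ⟨s, hs⟩ := ih
      refine ⟨u * s + 1, ?_⟩
      rw [Nat.cast_succ, gsucc, hs]
      ring
  have hg1 : IsUnit (g 1) := by
    obtain ⟨x, hx⟩ := hgsurj 1
    obtain ⟨s, hs⟩ := gval x.val
    rw [ZMod.natCast_val, ZMod.cast_id', id_eq, hx] at hs
    exact IsUnit.of_mul_eq_one s (by rw [mul_comm]; exact hs.symm)
  have hu1 : u = 1 := by
    have e := gsucc (-1)
    rw [neg_add_cancel, g0, gneg, hw1] at e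
    obtain ⟨v, hv⟩ := hg1
    rw [← hv] at e
    have : (u - 1) * (v : ZMod n) = 0 := by linear_combination e
    have := (Units.mul_left_eq_zero v).1 this
    linear_combination this
  have gmul : ∀ k : ℕ, g (k : ZMod n) = g 1 * (k : ZMod n) := by
    intro k
    induction k with
    | zero => simp [g0]
    | succ k ih =>
      rw [Nat.cast_succ, gsucc, ih, hu1]
      ring
  refine ⟨g 1, σ 0, hg1, fun i => ?_⟩
  have := gmul i.val
  rw [ZMod.natCast_val, ZMod.cast_id', id_eq] at this
  simp only [hg] at this ⊢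
  linear_combination this

/-- General form: let `n` be odd and let `H` be a set of affine permutations of `ℤ / n` which
contains the identity, the translation by one and the reflection `x ↦ - x`. If the coset `σ H` is
closed under products of `N ≥ 2` elements, then `σ` is affine. -/
theorem affine_of_closed {n : ℕ} [NeZero n] (hn : Odd n) (H : Set (Equiv.Perm (ZMod n)))
    (hH : ∀ h ∈ H, IsAffine h) (h1 : (1 : Equiv.Perm (ZMod n)) ∈ H)
    (ht : Equiv.addRight (1 : ZMod n) ∈ H) (hr : Equiv.neg (ZMod n) ∈ H)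
    (σ : Equiv.Perm (ZMod n)) (N : ℕ) (hN : 2 ≤ N) (hc : ClosedUnder N (coset σ H)) :
    IsAffine σ := by
  obtain ⟨M, rfl⟩ := Nat.exists_eq_add_of_le hN
  -- `σ h σ ^ M` is in `H` for all `h ∈ H`
  have key : ∀ h ∈ H, IsAffine (σ * h * σ ^ M) := by
    intro h hh
    have hmem := hc ([σ, σ * h] ++ List.replicate M σ) (by simp; omega) (by
      intro τ hτ
      simp only [List.cons_append, List.nil_append, List.mem_cons, List.mem_replicate] at hτ
      rcases hτ with rfl | rfl | ⟨-, rfl⟩
      · exact ⟨1, h1, (mul_one _).symm⟩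
      · exact ⟨h, hh, rfl⟩
      · exact ⟨1, h1, (mul_one _).symm⟩)
    obtain ⟨h', hh', he⟩ := hmem
    have : σ * h * σ ^ M = h' := by
      have he' : σ * (σ * h * σ ^ M) = σ * h' := by
        rw [← he]
        simp [mul_assoc]
      exact mul_left_cancel he'
    rw [this]
    exact hH h' hh'
  have k1 : IsAffine (σ * σ ^ M) := by
    have := key 1 h1
    rwa [mul_one] at this
  have conj : ∀ h ∈ H, IsAffine (σ * h * σ⁻¹) := by
    intro h hh
    have e : σ * h * σ⁻¹ = (σ * h * σ ^ M) * (σ * σ ^ M)⁻¹ := by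
      rw [← pow_succ', pow_succ]
      group
    rw [e]
    exact (key h hh).mul k1.inv
  exact affine_of_conj hn σ _ _ (fun i => by simp) (fun i => by simp) (conj _ ht) (conj _ hr)

/-- **Answer to Q1: no.** If `n ≥ 5` is coprime to `6`, there is no non-affine permutation `σ` of
`ℤ / n` for which the coset `σ D#` of the lifted dihedral group `D#` is closed under products of
`N` elements for some `N ≥ 2` and consists of panmagic permutations. -/
theorem result (n : ℕ) (hn : 5 ≤ n) (h6 : Nat.Coprime n 6) :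
    ¬ ∃ σ : Equiv.Perm (ZMod n), ¬ IsAffine σ ∧
      (∃ N : ℕ, 2 ≤ N ∧ ClosedUnder N (coset σ (LiftedDihedral n))) ∧
      ∀ τ ∈ coset σ (LiftedDihedral n), Panmagic τ := by
  rintro ⟨σ, hσ, ⟨N, hN, hc⟩, -⟩
  have : NeZero n := ⟨by omega⟩
  have hodd : Odd n := by
    have : Nat.Coprime n 2 := Nat.Coprime.coprime_dvd_right (by norm_num) h6
    exact Nat.coprime_two_right.1 this
  refine hσ (affine_of_closed hodd (LiftedDihedral n) ?_ ?_ ?_ ?_ σ N hN hc)
  · rintro h ⟨u, b, hu, -, h⟩
    exact ⟨u, b, hu, h⟩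
  · exact ⟨1, 0, isUnit_one, by simp, fun i => by simp⟩
  · exact ⟨1, 1, isUnit_one, by simp, fun i => by simp⟩
  · exact ⟨-1, 0, isUnit_one.neg, by simp, fun i => by simp⟩

end Pool.Agent.Results.MP_72c4d1_al.NoNonAffineCoset
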